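import Mathlib

/-! A banded Toeplitz-Hessenberg doubly stochastic matrix violating the trace bound. -/

set_option autoImplicit false

namespace Pool.Agent.Results.MP_e73184_al.TraceCex

/-- Admissible matrices for the band width `k`. -/
def Admissible {n : ℕ} (k : ℕ) (A : Matrix (Fin n) (Fin n) ℝ) : Prop :=
  (∀ i j, 0 ≤ A i j) ∧ (∀ j, ∑ i, A i j ≤ 1) ∧ (∀ i, ∑ j, A i j ≤ 1) ∧
    (∀ i j : Fin n, (i : ℕ) + 2 ≤ j → A i j = 0) ∧ (∀ i j : Fin n, (j : ℕ) + k < i → A i j = 0) ∧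
      ∃ c : ℕ → ℝ, (∀ l, l ≤ k → 0 ≤ c l) ∧
        ∀ l, l ≤ k → ∀ i j : Fin n, (j : ℕ) + l = i → A i j = c l

theorem result : ∃ (n k : ℕ) (A : Matrix (Fin n) (Fin n) ℝ), 1 ≤ n ∧ Admissible k A ∧
    (∀ l, 1 ≤ l → l ≤ k + 1 → (A ^ l).trace ≤ 1) ∧ ∃ m, k + 1 < m ∧ 1 < (A ^ m).trace := by
  refine ⟨3, 2, !![1/3, 2/3, 0; 0, 1/3, 2/3; 2/3, 0, 1/3], by norm_num, ⟨?_, ?_, ?_, ?_, ?_,
    fun l => if l = 0 then 1/3 else if l = 1 then 0 else 2/3, fun l _ => ?_, fun l hl i j h => ?_⟩,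
    fun l h1 h2 => ?_, 4, by norm_num, ?_⟩
  · intro i j; fin_cases i <;> fin_cases j <;> norm_num
  · intro j; fin_cases j <;> simp [Fin.sum_univ_three] <;> norm_num
  · intro j; fin_cases j <;> simp [Fin.sum_univ_three] <;> norm_num
  · intro i j; fin_cases i <;> fin_cases j <;> simp
  · intro i j; fin_cases i <;> fin_cases j <;> simp
  · dsimp only; split_ifs <;> norm_num
  · interval_cases l <;> fin_cases i <;> fin_cases j <;> simp at h ⊢
  · interval_cases l <;> simp [pow_succ, Matrix.trace_fin_three] <;> norm_num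
  · simp [pow_succ, Matrix.trace_fin_three]; norm_num

end Pool.Agent.Results.MP_e73184_al.TraceCex
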